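import Pool.Agent.Run7.h105.PC.Defs
/-! Piece LOWK (helper617) -/
set_option autoImplicit false

open Filter Topology Set MeasureTheory
open scoped ENNReal

namespace Pool.Agent.Run7.h617.PC
open Pool.Agent.Run7.h105.PC

theorem t_LOWK : S_SC → S_LOWC → S_LOWK := by
  intro hSC hLOWC s hs K hK m r k hm hr hk X hX
  obtain ⟨Y, hY, hcard⟩ := hLOWC s hs K hK m r k hm hr hk X hX
  refine le_trans ?_ hcard
  have hm0 : (0:ℝ) < m := by exact_mod_cast hm
  have hr0 : (0:ℝ) < r := by exact_mod_cast hr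
  have hk0 : (0:ℝ) < k := by exact_mod_cast hk
  set δ : ℝ := (1 + 1 / (r : ℝ)) * (1 / ((m : ℝ) * k)) with hδ
  have hδ0 : 0 < δ := by positivity
  have hcov : Cov s 1 (Icc 0 ((m * k * r / (r + 1) : ℕ) : ℝ)) (Y.map fun x => 0 + δ⁻¹ * x) := by
    intro y hy
    have h1 := hSC s 0 δ⁻¹ δ hs (inv_pos.2 hδ0) hδ0 (Icc 0 1) Y hY y (by
      rw [sub_zero, div_inv_eq_mul]
      refine ⟨mul_nonneg hy.1 hδ0.le, ?_⟩
      have h2 : (((m * k * r / (r + 1) : ℕ)) : ℝ) ≤ ((m * k * r : ℕ) : ℝ) / ((r + 1 : ℕ) : ℝ) :=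
        Nat.cast_div_le
      have h3 : y ≤ (m * k * r : ℝ) / (r + 1) := by
        have h4 := hy.2.trans h2
        push_cast at h4
        exact h4
      calc y * δ ≤ ((m * k * r : ℝ) / (r + 1)) * δ := mul_le_mul_of_nonneg_right h3 hδ0.le
        _ = 1 := by
          rw [hδ]
          field_simp)
    rw [inv_mul_cancel₀ hδ0.ne'] at h1
    exact h1
  have h := G_le hcov
  rwa [Multiset.card_map] at h

end Pool.Agent.Run7.h617.PC
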