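import Pool.Agent.Run7.h105.PC.Defs
/-! Piece POS (helper617) -/
set_option autoImplicit false

open Filter Topology Set MeasureTheory
open scoped ENNReal

namespace Pool.Agent.Run7.h617.PC
open Pool.Agent.Run7.h105.PC

/-- the truncated kernel -/
noncomputable def F (s : ℝ) (t : ℝ) : ℝ≥0∞ := min 1 ((ENNReal.ofReal |t|) ^ (-s))

theorem F_meas (s : ℝ) : Measurable (F s) := by
  unfold F
  fun_prop

theorem F_le (s : ℝ) (hs : 0 < s) (t : ℝ) :
    F s t ≤ ENNReal.ofReal (2 ^ s * (1 + ‖t‖) ^ (-s)) := by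
  unfold F
  rw [Real.norm_eq_abs]
  have h0 : 0 ≤ |t| := abs_nonneg t
  rcases le_or_gt |t| 1 with h | h
  · refine (min_le_left _ _).trans ?_
    rw [← ENNReal.ofReal_one]
    apply ENNReal.ofReal_le_ofReal
    rw [Real.rpow_neg (by positivity), ← div_eq_mul_inv, one_le_div (by positivity)]
    exact Real.rpow_le_rpow (by positivity) (by linarith) hs.le
  · refine (min_le_right _ _).trans ?_
    rw [ENNReal.ofReal_rpow_of_pos (by linarith)]
    apply ENNReal.ofReal_le_ofReal
    have e : (2:ℝ) ^ s * (1 + |t|) ^ (-s) = ((1 + |t|) / 2) ^ (-s) := by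
      rw [Real.div_rpow (by positivity) (by positivity), Real.rpow_neg (by norm_num : (0:ℝ) ≤ 2)]
      field_simp
    rw [e]
    exact Real.rpow_le_rpow_of_nonpos (by positivity) (by linarith) (by linarith)

theorem B_fin (s : ℝ) (hs : 1 < s) : ∫⁻ t, F s t < ⊤ := by
  have h1 : ∫⁻ t : ℝ, ENNReal.ofReal (2 ^ s * (1 + ‖t‖) ^ (-s)) < ⊤ := by
    have h2 := (integrable_one_add_norm (μ := (volume : Measure ℝ)) (r := s)
      (by simpa using hs)).const_mul (2 ^ s)
    exact h2.lintegral_lt_top
  exact (lintegral_mono (F_le s (by linarith))).trans_lt h1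

theorem int_sum (s : ℝ) (X : Multiset ℝ) :
    ∫⁻ y, (X.map fun x => F s (y - x)).sum = X.card * ∫⁻ t, F s t := by
  induction X using Multiset.induction_on with
  | empty => simp
  | cons a X ih =>
    simp only [Multiset.map_cons, Multiset.sum_cons, Multiset.card_cons]
    have hm : Measurable (fun y : ℝ => F s (y - a)) :=
      (F_meas s).comp (measurable_id.sub_const a)
    rw [lintegral_add_left hm, ih, lintegral_sub_right_eq_self (F s) a]
    push_cast
    ring

theorem one_le_sum (s : ℝ) (X : Multiset ℝ) (y : ℝ) (h : 1 ≤ U s X y) :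
    1 ≤ (X.map fun x => F s (y - x)).sum := by
  by_cases hx : ∃ x ∈ X, 1 ≤ (ENNReal.ofReal |y - x|) ^ (-s)
  · obtain ⟨x, hx, h1⟩ := hx
    have e : F s (y - x) = 1 := min_eq_left h1
    rw [← e]
    exact Multiset.single_le_sum (fun _ _ => bot_le) _
      (Multiset.mem_map_of_mem (fun x => F s (y - x)) hx)
  · have e : X.map (fun x => F s (y - x)) = X.map (fun x => (ENNReal.ofReal |y - x|) ^ (-s)) :=
      Multiset.map_congr rfl (fun x hxX =>
        min_eq_right (not_le.1 (fun h1 => hx ⟨x, hxX, h1⟩)).le)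
    rw [e]
    exact h

theorem t_POS : S_G1 → S_POS := by
  intro hG1 s hs
  have hB := B_fin s hs
  set B := ∫⁻ t, F s t with hBdef
  refine ⟨1 / (B.toReal + 1), by positivity, fun n => ?_⟩
  obtain ⟨X, hcard, -, hcov⟩ := hG1 s (by linarith) n
  have h1 : (n : ℝ≥0∞) ≤ X.card * B := by
    calc (n : ℝ≥0∞) = ∫⁻ y in Icc (0:ℝ) n, 1 := by simp
      _ ≤ ∫⁻ y in Icc (0:ℝ) n, (X.map fun x => F s (y - x)).sum := by
        refine setLIntegral_mono' measurableSet_Icc fun y hy => ?_
        refine one_le_sum s X y ?_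
        have := hcov y hy
        simpa using this
      _ ≤ ∫⁻ y, (X.map fun x => F s (y - x)).sum := setLIntegral_le_lintegral _ _
      _ = _ := int_sum s X
  have h2 : (n : ℝ) ≤ X.card * B.toReal := by
    have := ENNReal.toReal_mono (ENNReal.mul_ne_top (ENNReal.natCast_ne_top _) hB.ne) h1
    simpa using this
  rw [hcard] at h2
  rw [one_div_mul_eq_div, div_le_iff₀ (by positivity)]
  have : (0:ℝ) ≤ G s n := Nat.cast_nonneg _
  nlinarith

end Pool.Agent.Run7.h617.PC
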