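import Pool.Agent.Run7.h105.PC.Defs
/-! Piece SC (helper617) -/
set_option autoImplicit false

open Filter Topology Set MeasureTheory
open scoped ENNReal

namespace Pool.Agent.Run7.h617.PC
open Pool.Agent.Run7.h105.PC

theorem term_sc (s ρ t : ℝ) (hs : 0 < s) (hρ : 0 < ρ) :
    (ENNReal.ofReal (ρ * t)) ^ (-s) = (ENNReal.ofReal ρ) ^ (-s) * (ENNReal.ofReal t) ^ (-s) := by
  rw [ENNReal.ofReal_mul hρ.le, ENNReal.rpow_neg, ENNReal.rpow_neg, ENNReal.rpow_neg,
    ENNReal.mul_rpow_of_nonneg _ _ hs.le, ENNReal.mul_inv]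
  · left
    exact (ENNReal.rpow_pos (ENNReal.ofReal_pos.2 hρ) ENNReal.ofReal_ne_top).ne'
  · left
    exact ENNReal.rpow_ne_top_of_nonneg hs.le ENNReal.ofReal_ne_top

theorem t_SC : S_SC := by
  intro s a ρ δ hs hρ hδ A X hX y hy
  have h1 := hX _ hy
  have e : U s (X.map fun x => a + ρ * x) y = (ENNReal.ofReal ρ) ^ (-s) * U s X ((y - a) / ρ) := by
    unfold U
    rw [Multiset.map_map, ← Multiset.sum_map_mul_left]
    congr 1
    refine Multiset.map_congr rfl fun x _ => ?_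
    simp only [Function.comp]
    rw [← term_sc s ρ _ hs hρ]
    congr 2
    have h2 : y - (a + ρ * x) = ρ * ((y - a) / ρ - x) := by
      field_simp
      ring
    rw [h2, abs_mul, abs_of_pos hρ]
  rw [e, term_sc s ρ δ hs hρ]
  exact mul_le_mul_right h1 _

end Pool.Agent.Run7.h617.PC
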