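import Pool.Agent.Run7.h105.PC.Defs
/-! Piece SUB (helper617) -/
set_option autoImplicit false

open Filter Topology Set MeasureTheory
open scoped ENNReal

namespace Pool.Agent.Run7.h617.PC
open Pool.Agent.Run7.h105.PC

theorem t_SUB : S_SC → S_G1 → S_SUB := by
  intro hSC hG1 s hs m n
  obtain ⟨X, hX, -, hXc⟩ := hG1 s hs m
  obtain ⟨Y, hY, -, hYc⟩ := hG1 s hs n
  have hcov : Cov s 1 (Icc 0 (((m + n : ℕ)) : ℝ)) (X + Y.map fun x => (m : ℝ) + 1 * x) := by
    intro y hy
    rw [U_add]
    rcases le_or_gt y m with h | h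
    · exact (hXc y ⟨hy.1, h⟩).trans le_self_add
    · have h1 := hSC s (m : ℝ) 1 1 hs one_pos one_pos (Icc 0 (n : ℝ)) Y hYc y (by
        rw [div_one]
        refine ⟨by linarith, ?_⟩
        have h2 := hy.2
        push_cast at h2
        linarith)
      rw [one_mul] at h1
      exact h1.trans le_add_self
  have h := G_le hcov
  rw [Multiset.card_add, Multiset.card_map, hX, hY] at h
  exact h

end Pool.Agent.Run7.h617.PC
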